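import Pool.Agent.X39.Near.Pow
import Pool.Agent.X39.Near.DepInt

/-!
# `log α` and `α ^ β` for ALL algebraic numbers `α` close to any number outside a set of dimension zero

Gel'fond's question: are `log α` and `α ^ β` algebraically independent, for `α ≠ 0` algebraic, `β` irrational algebraic? We
prove, outside ONE set `E` of complex numbers of Hausdorff dimension `0` (for all `β`, number fields, degrees and scales):
for every `x ≠ 0`, every logarithm `l₀` of `x`, every irrational algebraic `β`, every number field `F` in `ℂ` and every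
`ω > 0`, the numbers `log α` and `α ^ β = exp (β log α)`, for ALL `α ∈ F` of height at most `T` with `|α - x| ≤ T ^ (-ω)` and
the determination of `log α` close to `l₀`, satisfy no relation of bounded degree with coefficients of polynomial size, even
approximately; here the coefficients may be polynomials in arbitrary constants `ξ_1, …, ξ_g` fixed in advance (for instance
`π`, logarithms and powers of other numbers). In particular nonzero integral polynomials `P` of degree at most `d` and of
height at most `T ^ A` satisfy `|P (log α, α ^ β)| > T ^ (-B)`.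

Proof: `exp s`, `s`, `exp (β s)` are algebraically independent functions; the levels of the library give, on compact sets, at
most `C T ^ ε` exceptional points of height `T`, for every `ε > 0`, and so a limsup set of dimension `0`
(`Pool.Agent.X39.Near`); all `β` and all branches of the logarithm are treated at the same time.
-/

set_option autoImplicit false

open MvPolynomial NumberField

namespace Pool.Agent.Results.MP_655169_nt.ApproximationsOfAllNumbers

open Pool.Agent.X39.Near (Size Dep)

/-- the numbers `log α`, `α ^ β` for `log α = ℓ` -/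
noncomputable def pair (β ℓ : ℂ) : Fin 2 → ℂ := ![ℓ, Complex.exp (β * ℓ)]

theorem ind1 {β : ℂ} (h : ∀ r : ℚ, (r : ℂ) ≠ β) : Pool.Agent.X39.Near.Ind1 (fun _ : Fin 1 => β) := by
  intro c₀ c hc
  rw [Fin.sum_univ_one] at hc
  have h1 : c 0 = 0 := by
    by_contra h0
    have h2 : (c 0 : ℂ) ≠ 0 := by exact_mod_cast h0
    apply h (-(c₀ : ℚ) / (c 0 : ℚ))
    push_cast
    rw [div_eq_iff h2]
    linear_combination (-1 : ℂ) * hc
  rw [h1, Int.cast_zero, zero_mul, add_zero] at hc
  refine ⟨by exact_mod_cast hc, ?_⟩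
  funext i
  rw [Subsingleton.elim i 0, h1]
  rfl

/-- the names -/
def e : Fin 2 ≃ Option (Fin 1) := (finSuccEquiv 1)

/-- **Theorem.** Let `ξ_1, …, ξ_g` be complex numbers. There is a set `E` of complex numbers of Hausdorff dimension `0` such
that for all `x` outside `E`, all `l₀` with `exp l₀ = x`, all irrational algebraic numbers `β`, all number fields `F` with an
embedding `ι` in `ℂ`, all `d`, `A` and `ω > 0` there are `B`, `T₁` such that for all `T ≥ T₁` and all `α ∈ F`, quotients of
integers with conjugates at most `T`, with `|ι α - x| ≤ T ^ (-ω)`, and the logarithm `ℓ` of `ι α` with `|ℓ - l₀| < 1`: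
(1) there is no relation (`Dep`) between `ℓ = log α` and `exp (β ℓ) = α ^ β`; (2) `|P (log α, α ^ β)| > T ^ (-B)` for all
nonzero integral polynomials `P` of degree at most `d` in each variable with coefficients of absolute value at most
`T ^ A`. -/
theorem result {g : ℕ} (ξ : Fin g → ℂ) :
    ∃ E : Set ℂ, dimH E = 0 ∧ ∀ x : ℂ, x ∉ E → ∀ l₀ : ℂ, Complex.exp l₀ = x →
      ∀ β : ℂ, IsAlgebraic ℚ β → (∀ r : ℚ, (r : ℂ) ≠ β) →
      ∀ (F : Type) [Field F] [NumberField F] (ι : F →+* ℂ) (d A : ℕ) (ω : ℝ), 0 < ω → ∃ B T₁ : ℝ, ∀ T : ℝ, T₁ ≤ T →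
        ∀ α : F, Size F T α → ‖ι α - x‖ ≤ T ^ (-ω) → ∀ ℓ : ℂ, Complex.exp ℓ = ι α → ‖ℓ - l₀‖ < 1 →
          ¬ Dep (pair β ℓ) ξ F ι d A B T ∧
          ∀ P : MvPolynomial (Fin 2) ℤ, P ≠ 0 → (∀ j, P.degreeOf j ≤ d) → (∀ e, |((P.coeff e : ℤ) : ℝ)| ≤ T ^ A) →
            T ^ (-B) < ‖aeval (pair β ℓ) P‖ := by
  obtain ⟨E, h1, h2⟩ := Pool.Agent.X39.Near.pw_near {β : ℂ | IsAlgebraic ℚ β} (Algebraic.countable ℚ ℂ) ξ
  refine ⟨E, h1, fun x hx l₀ hl β hβ hβ' F _ _ ι d A ω hω => ?_⟩
  obtain ⟨B, T₁, h3⟩ := h2 x hx l₀ hl 1 (fun _ => β) (fun _ => hβ) (ind1 hβ') F ι d A ω hω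
  refine ⟨B, max T₁ 1, fun T hT α hα hαx ℓ hℓ hℓl => ?_⟩
  have h4 : ¬ Dep (pair β ℓ) ξ F ι d A B T := by
    intro h
    refine h3 T ((le_max_left _ _).trans hT) α hα hαx ℓ hℓ hℓl (h.equiv e fun j => ?_)
    fin_cases j
    · rfl
    · rfl
  refine ⟨h4, fun P hP hPd hPA => ?_⟩
  have hT0 : 0 < T := lt_of_lt_of_le one_pos ((le_max_right _ _).trans hT)
  exact Pool.Agent.X39.Near.int_of_not_dep h4 hT0 P hP hPd (fun e => by exact_mod_cast hPA e)

end Pool.Agent.Results.MP_655169_nt.ApproximationsOfAllNumbers
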